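import Mathlib

/-!
# MP_a93e77_co, Q1: the answer is no

There is a regular self-complementary graph `G` (a circulant graph on 13 vertices) with
`F(G) = V(G)` and `N(G) = E(G)` that is not strongly regular.
-/

namespace Pool.Agent.Results.MP_a93e77_co.KotzigDisproof

/-- `P` is an isomorphism-permutation of `G`: an isomorphism from `G` onto its complement. -/
def IsIsoPerm {V : Type} (G : SimpleGraph V) (P : Equiv.Perm V) : Prop :=
  ∀ u v : V, u ≠ v → (G.Adj u v ↔ ¬ G.Adj (P u) (P v))

/-- `G` is self-complementary. -/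
def SelfComplementary {V : Type} (G : SimpleGraph V) : Prop :=
  Nonempty (G ≃g Gᶜ)

/-- `F(G)`: the vertices fixed by at least one isomorphism-permutation of `G`. -/
def FSet {V : Type} (G : SimpleGraph V) : Set V :=
  {v | ∃ P : Equiv.Perm V, IsIsoPerm G P ∧ P v = v}

/-- `N(G)`: the edges `uv` of `G` such that some isomorphism-permutation `P` has
`P u = v` or `P v = u`. -/
def NSet {V : Type} (G : SimpleGraph V) : Set (Sym2 V) :=
  {e | ∃ u v : V, e = s(u, v) ∧ G.Adj u v ∧
    ∃ P : Equiv.Perm V, IsIsoPerm G P ∧ (P u = v ∨ P v = u)}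

/-- `G` is regular. -/
def Regular {V : Type} (G : SimpleGraph V) : Prop :=
  ∃ d : ℕ, ∀ v : V, (G.neighborSet v).ncard = d

/-- `G` is regular, every edge lies in the same number of triangles, and every two distinct
nonadjacent vertices have the same number of common neighbours. -/
def StronglyRegular {V : Type} (G : SimpleGraph V) : Prop :=
  Regular G ∧
  (∃ l : ℕ, ∀ u v : V, G.Adj u v → {w | G.Adj u w ∧ G.Adj v w}.ncard = l) ∧
  (∃ m : ℕ, ∀ u v : V, u ≠ v → ¬ G.Adj u v → {w | G.Adj u w ∧ G.Adj v w}.ncard = m)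

/-- The connection set. -/
def S : Finset (ZMod 13) := {1, 2, 4, 9, 11, 12}

lemma S_neg : ∀ x : ZMod 13, x ∈ S → -x ∈ S := by decide

lemma S_mul : ∀ x : ZMod 13, x ≠ 0 → (x ∈ S ↔ ¬ (8 * x ∈ S)) := by decide

/-- The circulant graph on `ZMod 13` with connection set `S`. -/
def C : SimpleGraph (ZMod 13) where
  Adj u v := v - u ∈ S
  symm := ⟨by
    intro u v h
    have := S_neg _ h
    rwa [neg_sub] at this⟩
  loopless := ⟨by
    intro u h
    rw [sub_self] at h
    revert h
    decide⟩

instance : DecidableRel C.Adj := fun u v => inferInstanceAs (Decidable (v - u ∈ S))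

/-- The affine permutation `x ↦ 8 x + b`. -/
def aff (b : ZMod 13) : Equiv.Perm (ZMod 13) where
  toFun x := 8 * x + b
  invFun x := 5 * (x - b)
  left_inv := by
    intro x
    have h : (5 : ZMod 13) * 8 = 1 := by decide
    have : (5 : ZMod 13) * (8 * x + b - b) = (5 * 8) * x := by ring
    exact this.trans (by rw [h, one_mul])
  right_inv := by
    intro x
    have h : (8 : ZMod 13) * 5 = 1 := by decide
    have : (8 : ZMod 13) * (5 * (x - b)) + b = (8 * 5) * (x - b) + b := by ring
    exact this.trans (by rw [h, one_mul, sub_add_cancel])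

lemma aff_isIsoPerm (b : ZMod 13) : IsIsoPerm C (aff b) := by
  intro u v huv
  have h := S_mul (v - u) (sub_ne_zero.mpr huv.symm)
  have e : (aff b v) - (aff b u) = 8 * (v - u) := by
    change (8 * v + b) - (8 * u + b) = 8 * (v - u)
    ring
  change v - u ∈ S ↔ ¬ ((aff b v) - (aff b u) ∈ S)
  rw [e]
  exact h

lemma C_selfCompl : SelfComplementary C := by
  refine ⟨⟨aff 0, ?_⟩⟩
  intro u v
  rw [SimpleGraph.compl_adj]
  by_cases huv : u = v
  · subst huv
    simp
  · have h := aff_isIsoPerm 0 u v huv
    constructor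
    · rintro ⟨_, h2⟩
      exact h.mpr h2
    · intro h1
      exact ⟨fun h3 => huv ((aff 0).injective h3), h.mp h1⟩

lemma C_F : FSet C = Set.univ := by
  apply Set.eq_univ_of_forall
  intro v
  refine ⟨aff (v - 8 * v), aff_isIsoPerm _, ?_⟩
  change 8 * v + (v - 8 * v) = v
  ring

lemma C_N : NSet C = C.edgeSet := by
  ext e
  constructor
  · rintro ⟨u, v, rfl, h, _⟩
    exact h
  · induction e using Sym2.ind with
    | _ u v =>
      intro h
      refine ⟨u, v, rfl, h, aff (v - 8 * u), aff_isIsoPerm _, Or.inl ?_⟩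
      change 8 * u + (v - 8 * u) = v
      ring

lemma C_regular : Regular C := by
  refine ⟨6, ?_⟩
  intro v
  have : (C.neighborSet v) =
      ((Finset.univ.filter (fun w => C.Adj v w) : Finset (ZMod 13)) : Set (ZMod 13)) := by
    ext w
    simp
  rw [this, Set.ncard_coe_finset]
  clear this
  revert v
  decide

lemma common_eq (u v : ZMod 13) : {w | C.Adj u w ∧ C.Adj v w}.ncard =
    (Finset.univ.filter (fun w => C.Adj u w ∧ C.Adj v w)).card := by
  rw [← Set.ncard_coe_finset]
  congr 1
  ext w
  simp

lemma C_not_srg : ¬ StronglyRegular C := by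
  rintro ⟨_, ⟨l, hl⟩, _⟩
  have h1 := hl 0 1 (by decide)
  have h2 := hl 0 2 (by decide)
  rw [common_eq] at h1 h2
  have e1 : (Finset.univ.filter (fun w => C.Adj 0 w ∧ C.Adj 1 w)).card = 2 := by decide
  have e2 : (Finset.univ.filter (fun w => C.Adj 0 w ∧ C.Adj 2 w)).card = 3 := by decide
  omega

/-- **The statement of Q1 is false.** There is a regular self-complementary graph `G` with
`F(G) = V(G)` and `N(G) = E(G)` that is not strongly regular; hence it is not true that a
finite regular self-complementary graph `G` is strongly regular if and only if `F(G) = V(G)` and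
`N(G) = E(G)`. -/
theorem result :
    ∃ G : SimpleGraph (Fin 13), Regular G ∧ SelfComplementary G ∧
      FSet G = Set.univ ∧ NSet G = G.edgeSet ∧ ¬ StronglyRegular G :=
  ⟨(C : SimpleGraph (ZMod 13)), C_regular, C_selfCompl, C_F, C_N, C_not_srg⟩

end Pool.Agent.Results.MP_a93e77_co.KotzigDisproof
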